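import Pool.Agent.W_7d29a1_X72.Jensen
import Pool.Agent.W_7d29a1_SR.Mom

/-!
STORM X, PA: the mean number of bad slabs along the polymer, for windows shorter than the polymer.
-/

namespace Pool.Agent.W_7d29a1_X72

open MeasureTheory ProbabilityTheory Filter Topology
open Pool.Agent.W_7d29a1_F Pool.Agent.W_7d29a1_L Pool.Agent.W_7d29a1_SR Pool.Agent.W_7d29a1_G
open Pool.Agent.W_7d29a1_X50 (Gn Pr Aw)
open scoped ENNReal

noncomputable section

variable {μ : Measure ℝ}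

/-- The Gibbs mean number of the bad slabs: offset `s`, `k` slabs of the duration `m`, then `l₀`. -/
def CN (μ : Measure ℝ) (s m l₀ : ℕ) (b : Env → Pt → ℝ) (k : ℕ) (η : Env) : ℝ :=
  PR μ s (Mk μ m l₀ b k η) η 0 / Real.exp (V μ 0 η 0 (s + (k * m + l₀)))

/-- The Gibbs mean of `b` in the row `a` (the polymer has the length `a + m + k`). -/
def Gb (μ : Measure ℝ) (a m k : ℕ) (b : Env → Pt → ℝ) (η : Env) : ℝ :=
  ∑ q ∈ Pr a m, Gn μ 0 η a m k q * b η ((a : ℤ), q.1)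

theorem Gb_eq (a m k : ℕ) (b : Env → Pt → ℝ) (η : Env) :
    Gb μ a m k b η = PR μ a (fun p => b η p * Real.exp (V μ 0 η p (m + k))) η 0 / Real.exp (V μ 0 η 0 (a + m + k)) := by
  unfold Gb PR Gn Pr Aw
  rw [Finset.sum_product, Finset.sum_div]
  refine Finset.sum_congr rfl fun x _ => ?_
  have h1 : ((0 : Pt).1 + (a : ℤ), (0 : Pt).2 + x) = ((a : ℤ), x) := by simp
  rw [h1]
  dsimp only
  rw [exp_V_add η ((a : ℤ), x) m k, Finset.mul_sum, Finset.mul_sum, Finset.sum_div]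
  refine Finset.sum_congr rfl fun y _ => ?_
  dsimp only
  ring

theorem CN_eq (s m l₀ : ℕ) {b : Env → Pt → ℝ} (hb : ∀ η a, 0 ≤ b η a) (k : ℕ) (η : Env) :
    CN μ s m l₀ b k η = ∑ i ∈ Finset.range k, Gb μ (s + i * m) m ((k - 1 - i) * m + l₀) b η := by
  unfold CN
  have h2 : Mk μ m l₀ b k η = fun a => ∑ i ∈ Finset.range k,
      PR μ (i * m) (fun p => b η p * Real.exp (V μ 0 η p ((k - i) * m + l₀))) η a := funext fun a => Mk_eq m l₀ hb k η a
  rw [h2, PR_sum_fun, Finset.sum_div]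
  refine Finset.sum_congr rfl fun i hi => ?_
  rw [Finset.mem_range] at hi
  rw [Gb_eq, ← PR_add η 0 (fun p => mul_nonneg (hb _ _) (Real.exp_pos _).le)]
  obtain ⟨j, hj⟩ : ∃ j, k = i + 1 + j := ⟨k - (i + 1), by omega⟩
  have e1 : k - i = j + 1 := by omega
  have e2 : k - 1 - i = j := by omega
  have e3 : (j + 1) * m + l₀ = m + (j * m + l₀) := by ring
  have e4 : s + (k * m + l₀) = s + i * m + m + (j * m + l₀) := by rw [hj]; ring
  rw [e1, e2, e3, e4]

theorem Gb_nonneg (a m k : ℕ) {b : Env → Pt → ℝ} (hb : ∀ η a, 0 ≤ b η a) (η : Env) : 0 ≤ Gb μ a m k b η :=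
  Finset.sum_nonneg fun _ _ => mul_nonneg (Pool.Agent.W_7d29a1_X50.Gn_nonneg _ _ _ _ _) (hb _ _)

theorem Gb_le_one (a m k : ℕ) {b : Env → Pt → ℝ} (hb : ∀ η a, b η a ≤ 1) (η : Env) : Gb μ a m k b η ≤ 1 := by
  rw [← Pool.Agent.W_7d29a1_X50.Gn_sum (μ := μ) (s := 0) η a m k]
  unfold Gb
  refine Finset.sum_le_sum fun q _ => ?_
  have h1 := Pool.Agent.W_7d29a1_X50.Gn_nonneg (μ := μ) (s := 0) η a m k q
  nlinarith [hb η ((a : ℤ), q.1)]

theorem measurable_Gb (a m k : ℕ) {b : Env → Pt → ℝ} (hb : ∀ a, Measurable fun η => b η a) :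
    Measurable fun η => Gb μ a m k b η := by
  unfold Gb
  exact Finset.measurable_sum _ fun q _ => (Pool.Agent.W_7d29a1_X50.measurable_Gn a m k q).mul (hb _)

variable [IsProbabilityMeasure μ] {c C : ℝ} {n₀ : ℕ}

omit [IsProbabilityMeasure μ] in
/-- Jensen with the offset. -/
theorem Rs_ge (s : ℕ) {m l₀ : ℕ} {b : Env → Pt → ℝ} (hb : ∀ η a, b η a = 0 ∨ b η a = 1) {ρ : ℝ} (hρ : 0 ≤ ρ) (k : ℕ)
    (η : Env) :
    ENNReal.ofReal (Real.exp (V μ 0 η 0 (s + (k * m + l₀)) + Real.log (1 + ρ) * CN μ s m l₀ b k η)) ≤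
      Pe μ s (Re μ m (ENNReal.ofReal ρ) (fun η a => ENNReal.ofReal (b η a))
        (fun η a => ENNReal.ofReal (Real.exp (V μ 0 η a l₀))) k η) η 0 := by
  obtain ⟨L, hL⟩ : ∃ L, L = Real.log (1 + ρ) := ⟨_, rfl⟩
  obtain ⟨n, hn⟩ : ∃ n, n = k * m + l₀ := ⟨_, rfl⟩
  have h3 : ENNReal.ofReal (PR μ s (fun p => Real.exp (V μ 0 η p n) *
      Real.exp (L * Mk μ m l₀ b k η p / Real.exp (V μ 0 η p n))) η 0) ≤ Pe μ s (Re μ m (ENNReal.ofReal ρ)
        (fun η a => ENNReal.ofReal (b η a)) (fun η a => ENNReal.ofReal (Real.exp (V μ 0 η a l₀))) k η) η 0 := by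
    rw [← Pe_ofReal η 0 (fun p => (mul_pos (Real.exp_pos _) (Real.exp_pos _)).le)]
    unfold Pe
    refine Finset.sum_le_sum fun y _ => mul_le_mul' le_rfl ?_
    have := Re_ge (μ := μ) (m := m) (l₀ := l₀) hb hρ k η ((0 : Pt).1 + (s : ℤ), (0 : Pt).2 + y)
    rw [← hL, ← hn] at this
    exact this
  have h4 := PR_jensen (μ := μ) s n (fun p => L * Mk μ m l₀ b k η p / Real.exp (V μ 0 η p n)) η 0
  have e5 : (fun p => Real.exp (V μ 0 η p n) * (L * Mk μ m l₀ b k η p / Real.exp (V μ 0 η p n))) =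
      fun p => L * Mk μ m l₀ b k η p := by
    funext p
    have := (Real.exp_pos (V μ 0 η p n)).ne'
    field_simp
  rw [e5, PR_mul_fun] at h4
  refine le_trans (ENNReal.ofReal_le_ofReal ?_) h3
  refine le_trans (le_of_eq ?_) h4
  rw [Real.exp_add, ← hL]
  unfold CN
  rw [← hn, mul_div_assoc]

/-- The first moment of the number of the bad slabs. -/
theorem CN_mean (h : In μ c C n₀) {n : ℕ} (hn : n₀ ≤ n) (hw : 1 ≤ wd μ n) {m : ℕ} {p : ℝ≥0∞} {b : Env → Pt → ℝ}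
    (hbm : ∀ a, Measurable fun η => b η a) (hb : ∀ η a, b η a = 0 ∨ b η a = 1)
    (hbd : ∀ t x, DependsOn (fun η => b η (t, x)) (rows t (t + m)))
    (hp : ∀ z t, ∫⁻ η, Sc (wd μ n) z t (fun a => ENNReal.ofReal (b η a)) ∂(law μ) ≤ p)
    {r : ℕ} (hr1 : 1 ≤ r) (hr : r * m ≤ 4 * n) (hm : m ≤ 4 * n) {k : ℕ} (hk : k ≤ r) (q : ℕ) {s l₀ : ℕ} (hs : s ≤ 4 * n)
    (hl : l₀ ≤ 4 * n) (hpr : ENNReal.ofReal (Real.exp 1 * KK c C ^ 2 * r) * p ^ (1 / 2 : ℝ) ≤ 1) :
    EE μ n * ∫ η, CN μ s m l₀ b (k + q * r) η ∂(law μ) ≤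
      2 * C * EE μ n * ((q + 3) * (Real.log (KK c C) + 1)) + EE μ (s + ((k + q * r) * m + l₀)) := by
  have hE : 1 ≤ EE μ n := one_le_EE n
  have hC := h.C1
  have hc := h.c0
  have hK1 : 1 ≤ KK c C := KK_ge hc hC
  have hθ0 := th_pos h n
  have hθ1 := th_le_one h n
  have hθE : th μ C n * EE μ n = 1 / (2 * C) := by
    unfold th
    field_simp
  obtain ⟨θ, hθ⟩ : ∃ θ, θ = th μ C n := ⟨_, rfl⟩
  obtain ⟨K, hK⟩ : ∃ K, K = KK c C := ⟨_, rfl⟩
  have hr0 : (0 : ℝ) < r := by exact_mod_cast (show 0 < r by omega)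
  obtain ⟨ρ, hρ⟩ : ∃ ρ, ρ = Real.exp (EE μ n) - 1 := ⟨_, rfl⟩
  have hρ0 : 0 ≤ ρ := by
    rw [hρ]
    have := Real.add_one_le_exp (EE μ n)
    linarith
  have hρ1 : 1 + ρ = Real.exp (EE μ n) := by rw [hρ]; ring
  have hlog : Real.log (1 + ρ) = EE μ n := by rw [hρ1, Real.log_exp]
  obtain ⟨ε, hε⟩ : ∃ ε, ε = ENNReal.ofReal (1 / r) := ⟨_, rfl⟩
  -- the smallness of `ε`
  have h1 : ENNReal.ofReal ρ ^ θ ≤ ENNReal.ofReal (Real.exp 1) := by
    have e1 : ENNReal.ofReal ρ ^ θ ≤ ENNReal.ofReal (Real.exp (EE μ n)) ^ θ :=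
      ENNReal.rpow_le_rpow (ENNReal.ofReal_le_ofReal (by rw [hρ]; linarith)) (by rw [hθ]; exact hθ0.le)
    refine e1.trans ?_
    rw [ENNReal.ofReal_rpow_of_pos (Real.exp_pos _), ← Real.exp_mul]
    refine ENNReal.ofReal_le_ofReal (Real.exp_le_exp.2 ?_)
    rw [hθ, mul_comm, hθE, div_le_one (by linarith)]
    linarith
  have h2 : ENNReal.ofReal ρ ^ θ * (ENNReal.ofReal K * (p ^ (1 / 2 : ℝ) * ENNReal.ofReal K)) ≤ ε := by
    have e1 : ENNReal.ofReal ρ ^ θ * (ENNReal.ofReal K * (p ^ (1 / 2 : ℝ) * ENNReal.ofReal K)) ≤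
        ENNReal.ofReal (Real.exp 1 * K ^ 2) * p ^ (1 / 2 : ℝ) := by
      refine (mul_le_mul' h1 le_rfl).trans (le_of_eq ?_)
      rw [ENNReal.ofReal_mul (Real.exp_pos _).le, sq, ENNReal.ofReal_mul (by rw [hK]; linarith)]
      ring
    refine e1.trans ?_
    have e2 : ENNReal.ofReal (Real.exp 1 * K ^ 2) * p ^ (1 / 2 : ℝ) =
        ε * (ENNReal.ofReal (Real.exp 1 * K ^ 2 * r) * p ^ (1 / 2 : ℝ)) := by
      rw [← mul_assoc, hε, ← ENNReal.ofReal_mul (by positivity)]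
      congr 2
      field_simp
    rw [e2]
    calc ε * (ENNReal.ofReal (Real.exp 1 * K ^ 2 * r) * p ^ (1 / 2 : ℝ)) ≤ ε * 1 := by
          refine mul_le_mul' le_rfl ?_
          rw [hK]
          exact hpr
      _ = ε := mul_one _
  have h3 : (1 + ε) ^ r ≤ ENNReal.ofReal (Real.exp 1) := by
    have e1 : 1 + ε = ENNReal.ofReal (1 + 1 / r) := by
      rw [hε, ENNReal.ofReal_add one_pos.le (by positivity), ENNReal.ofReal_one]
    rw [e1, ← ENNReal.ofReal_pow (by positivity)]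
    refine ENNReal.ofReal_le_ofReal ?_
    have e2 := Real.add_one_le_exp (1 / (r : ℝ))
    calc (1 + 1 / (r : ℝ)) ^ r ≤ Real.exp (1 / r) ^ r := pow_le_pow_left₀ (by positivity) (by linarith) _
      _ = Real.exp 1 := by
          rw [← Real.exp_nat_mul]
          congr 1
          field_simp
  -- the moment of the rewards
  obtain ⟨N, hN⟩ : ∃ N, N = s + ((k + q * r) * m + l₀) := ⟨_, rfl⟩
  obtain ⟨f, hf⟩ : ∃ f : Env → Pt → ℝ≥0∞, f = fun η a => ENNReal.ofReal (Real.exp (V μ 0 η a l₀)) := ⟨_, rfl⟩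
  have h4 : ∀ t, NB μ (wd μ n) (th μ C n) t (ENNReal.ofReal K * 1) f := by
    intro t
    have e1 := NB.pe h hn hw hl (t := t) (NB.one (μ := μ) (w := wd μ n) hθ0 (t + l₀))
    rw [hK]
    refine e1.congr fun η x => ?_
    rw [hf]
    show ENNReal.ofReal (Real.exp (V μ 0 η (t, x) l₀)) = Pe μ l₀ (fun _ => 1) η (t, x)
    have e2 := PR_V (μ := μ) l₀ 0 η (t, x)
    rw [add_zero] at e2
    rw [← e2, ← Pe_ofReal η _ (fun b => (Real.exp_pos _).le)]
    refine Pe_congr η _ fun x => ?_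
    rw [V_zero, Real.exp_zero, ENNReal.ofReal_one]
  obtain ⟨R, hR⟩ : ∃ R : Env → Pt → ℝ≥0∞, R = fun η => Pe μ s (Re μ m (ENNReal.ofReal ρ) (fun η a => ENNReal.ofReal (b η a))
        f (k + q * r) η) η := ⟨_, rfl⟩
  have h5 : NB μ (wd μ n) (th μ C n) 0 (ENNReal.ofReal K * ((ENNReal.ofReal K * (1 + ε) ^ r) ^ (q + 1) *
      (ENNReal.ofReal K * 1))) R := by
    rw [hR]
    have e1 := NB.wins h hn hw (ib := fun η a => ENNReal.ofReal (b η a)) (m := m) (p := p) (ρ := ENNReal.ofReal ρ) (ε := ε)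
      (fun a => (hbm a).ennreal_ofReal) (fun η a => by
        rcases hb η a with h | h
        · left
          rw [h, ENNReal.ofReal_zero]
        · right
          rw [h, ENNReal.ofReal_one])
      (fun t x η η' hη => by
        have e3 := hbd t x hη
        simp only at e3
        show ENNReal.ofReal (b η (t, x)) = ENNReal.ofReal (b η' (t, x))
        rw [e3])
      hp (by rw [← hθ, ← hK]; exact h2) hr hm hk q (0 + (s : ℤ)) (h4 _)
    rw [hK]
    rw [hK] at e1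
    exact NB.pe h hn hw hs e1
  obtain ⟨Bt, hBt⟩ : ∃ Bt : ℝ, Bt = K * ((K * Real.exp 1) ^ (q + 1) * K) := ⟨_, rfl⟩
  have hK0 : 0 < K := by rw [hK]; linarith
  have hBt0 : 0 < Bt := by rw [hBt]; positivity
  have h6 : ENNReal.ofReal K * ((ENNReal.ofReal K * (1 + ε) ^ r) ^ (q + 1) * (ENNReal.ofReal K * 1)) ≤
      ENNReal.ofReal Bt := by
    rw [hBt, ENNReal.ofReal_mul hK0.le, ENNReal.ofReal_mul (by positivity), ENNReal.ofReal_pow (by positivity),
      ENNReal.ofReal_mul hK0.le, mul_one]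
    gcongr
  have h7 : ∫⁻ η, R η 0 ^ θ ∂(law μ) ≤ ENNReal.ofReal Bt := by
    refine le_trans ?_ (((h5.b (-(1 / 2)))).trans h6)
    refine lintegral_mono fun η => ?_
    rw [hθ]
    refine ENNReal.rpow_le_rpow ?_ hθ0.le
    unfold Sc
    have h0 : (0 : ℤ) ∈ Cl (wd μ n) (-(1 / 2)) 0 := by
      rw [mem_Cl]
      constructor
      · norm_num
      · push_cast
        linarith
    exact Finset.le_sup (f := fun x => R η (0, x)) h0
  -- Jensen in the environment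
  obtain ⟨Y, hY⟩ : ∃ Y : Env → ℝ, Y = fun η => V μ 0 η 0 N + EE μ n * CN μ s m l₀ b (k + q * r) η := ⟨_, rfl⟩
  have hb0 : ∀ η a, 0 ≤ b η a := fun η a => by rcases hb η a with h | h <;> rw [h]; norm_num
  have hb1 : ∀ η a, b η a ≤ 1 := fun η a => by rcases hb η a with h | h <;> rw [h]; norm_num
  have h8 : ∀ η, ENNReal.ofReal (Real.exp (Y η)) ≤ R η 0 := by
    intro η
    have e1 := Rs_ge (μ := μ) s (m := m) (l₀ := l₀) hb hρ0 (k + q * r) η
    rw [hlog, ← hN, ← hf] at e1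
    rw [hY, hR]
    exact e1
  have hCNm : Measurable fun η => CN μ s m l₀ b (k + q * r) η := by
    have e1 : (fun η => CN μ s m l₀ b (k + q * r) η) = fun η => ∑ i ∈ Finset.range (k + q * r),
        Gb μ (s + i * m) m ((k + q * r - 1 - i) * m + l₀) b η := funext fun η => CN_eq s m l₀ hb0 _ η
    rw [e1]
    exact Finset.measurable_sum _ fun i _ => measurable_Gb _ _ _ hbm
  have hCN0 : ∀ η, 0 ≤ CN μ s m l₀ b (k + q * r) η := fun η => by
    rw [CN_eq s m l₀ hb0]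
    exact Finset.sum_nonneg fun i _ => Gb_nonneg _ _ _ hb0 η
  have hCN1 : ∀ η, CN μ s m l₀ b (k + q * r) η ≤ ((k + q * r : ℕ) : ℝ) := fun η => by
    rw [CN_eq s m l₀ hb0]
    calc ∑ i ∈ Finset.range (k + q * r), Gb μ (s + i * m) m ((k + q * r - 1 - i) * m + l₀) b η
        ≤ ∑ _i ∈ Finset.range (k + q * r), (1 : ℝ) := Finset.sum_le_sum fun i _ => Gb_le_one _ _ _ hb1 η
      _ = ((k + q * r : ℕ) : ℝ) := by simp
  have hCNi : Integrable (fun η => CN μ s m l₀ b (k + q * r) η) (law μ) := by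
    refine Integrable.mono' (integrable_const ((k + q * r : ℕ) : ℝ)) hCNm.aestronglyMeasurable
      (Eventually.of_forall fun η => ?_)
    rw [Real.norm_of_nonneg (hCN0 η)]
    exact hCN1 η
  have hVi : Integrable (fun η => V μ 0 η 0 N) (law μ) := (Sub_V 0 N).integrable h.em
  have hYi : Integrable Y (law μ) := by rw [hY]; exact hVi.add (hCNi.const_mul _)
  have hYm : Measurable Y := by rw [hY]; exact (measurable_V 0 N).add (hCNm.const_mul _)
  have hθp : 0 < θ := by rw [hθ]; exact hθ0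
  have h9 : ∫⁻ η, ENNReal.ofReal (Real.exp (θ * Y η)) ∂(law μ) ≤ ENNReal.ofReal Bt := by
    refine le_trans (lintegral_mono fun η => ?_) h7
    have e1 : ENNReal.ofReal (Real.exp (θ * Y η)) = ENNReal.ofReal (Real.exp (Y η)) ^ θ := by
      rw [ENNReal.ofReal_rpow_of_pos (Real.exp_pos _), ← Real.exp_mul, mul_comm]
    rw [e1]
    exact ENNReal.rpow_le_rpow (h8 η) hθp.le
  have hei : Integrable (fun η => Real.exp (θ * Y η)) (law μ) := by
    refine ⟨(Real.measurable_exp.comp (hYm.const_mul θ)).aestronglyMeasurable, ?_⟩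
    rw [hasFiniteIntegral_iff_ofReal (Eventually.of_forall fun η => (Real.exp_pos _).le)]
    exact lt_of_le_of_lt h9 ENNReal.ofReal_lt_top
  have h10 : Real.exp (∫ η, θ * Y η ∂(law μ)) ≤ ∫ η, Real.exp (θ * Y η) ∂(law μ) :=
    convexOn_exp.map_integral_le (μ := law μ) Real.continuous_exp.continuousOn isClosed_univ (Eventually.of_forall fun _ => Set.mem_univ _)
      (hYi.const_mul θ) hei
  have h11 : ∫ η, Real.exp (θ * Y η) ∂(law μ) ≤ Bt := by
    rw [integral_eq_lintegral_of_nonneg_ae (Eventually.of_forall fun η => (Real.exp_pos _).le)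
      (Real.measurable_exp.comp (hYm.const_mul θ)).aestronglyMeasurable]
    calc (∫⁻ η, ENNReal.ofReal (Real.exp (θ * Y η)) ∂(law μ)).toReal ≤ (ENNReal.ofReal Bt).toReal :=
          ENNReal.toReal_mono ENNReal.ofReal_ne_top h9
      _ = Bt := ENNReal.toReal_ofReal hBt0.le
  have h12 : θ * ∫ η, Y η ∂(law μ) ≤ Real.log Bt := by
    rw [← integral_const_mul]
    rw [Real.le_log_iff_exp_le hBt0]
    exact h10.trans h11
  have h13 : ∫ η, Y η ∂(law μ) = ∫ η, V μ 0 η 0 N ∂(law μ) + EE μ n * ∫ η, CN μ s m l₀ b (k + q * r) η ∂(law μ) := by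
    rw [hY, integral_add hVi (hCNi.const_mul _), integral_const_mul]
  have h14 := (mean_V h N).1
  have hlK : 0 ≤ Real.log K := Real.log_nonneg (by rw [hK]; exact hK1)
  have h15 : Real.log Bt ≤ (q + 3) * (Real.log K + 1) := by
    rw [hBt, Real.log_mul hK0.ne' (by positivity), Real.log_mul (by positivity) hK0.ne', Real.log_pow,
      Real.log_mul hK0.ne' (Real.exp_pos 1).ne', Real.log_exp]
    push_cast
    nlinarith
  have h16 : ∫ η, Y η ∂(law μ) ≤ 2 * C * EE μ n * ((q + 3) * (Real.log K + 1)) := by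
    have e1 : θ * ∫ η, Y η ∂(law μ) ≤ (q + 3) * (Real.log K + 1) := h12.trans h15
    have e2 : θ * (2 * C * EE μ n) = 1 := by
      have : θ * EE μ n = 1 / (2 * C) := by rw [hθ]; exact hθE
      calc θ * (2 * C * EE μ n) = θ * EE μ n * (2 * C) := by ring
        _ = 1 := by
            rw [this]
            field_simp
    have e3 : 0 < 2 * C * EE μ n := by positivity
    calc ∫ η, Y η ∂(law μ) = θ * (2 * C * EE μ n) * ∫ η, Y η ∂(law μ) := by rw [e2, one_mul]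
      _ = 2 * C * EE μ n * (θ * ∫ η, Y η ∂(law μ)) := by ring
      _ ≤ _ := mul_le_mul_of_nonneg_left e1 e3.le
  rw [h13] at h16
  rw [← hN, ← hK]
  linarith

end

end Pool.Agent.W_7d29a1_X72
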