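import Pool.Agent.W_7d29a1_X72.PA
import Pool.Agent.W_7d29a1_X40.Lam
import Pool.Agent.W_7d29a1_X50.Pieces
import Pool.Agent.W_7d29a1_XT.Node

/-!
STORM X, (I3): the lucks of the windows at the place of the polymer, relative to a small multiple of the price.
-/

namespace Pool.Agent.W_7d29a1_X72

open MeasureTheory ProbabilityTheory Filter Topology
open Pool.Agent.W_7d29a1_F Pool.Agent.W_7d29a1_L Pool.Agent.W_7d29a1_SR Pool.Agent.W_7d29a1_G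
open Pool.Agent.W_7d29a1_X50 (Gn Pr Aw Dj Gn_nonneg Gn_le_one measurable_Gn mem_Pr)
open Pool.Agent.W_7d29a1_X40 (Lm Lm_nonneg le_Lm le_Lm_sh Lm_le Sub_Lm Lm_dep Lm_tail lam_exp d2_all)
open Pool.Agent.W_7d29a1_XT (Phn)
open scoped ENNReal

noncomputable section

variable {μ : Measure ℝ} [IsProbabilityMeasure μ] {c C : ℝ} {n₀ : ℕ}

/-- The luck of the window of the duration `m`, read at the site `a`. -/
def Lu (μ : Measure ℝ) (c₁ : ℝ) (m : ℕ) (η : Env) (a : Pt) : ℝ := Lm μ c₁ m {0} (sh a η)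

/-- **(I3)** -/
theorem I3 (h : In μ c C n₀) (hD : Dj μ) : ∃ c' Cl : ℝ, ∃ i₁ : ℕ, 0 < c' ∧ 0 ≤ Cl ∧
    ∀ i N : ℕ, i₁ ≤ i → 2 ^ i ≤ N →
      ∑ k ∈ Finset.range (N / 2 ^ i), ∫ η, ∑ q ∈ Pr (k * 2 ^ i) (2 ^ i),
        Gn μ 0 η (k * 2 ^ i) (2 ^ i) (N - (k * 2 ^ i + 2 ^ i)) q *
        (max (c' * Phn μ (2 ^ i) q.2 - X μ 0 η (((k * 2 ^ i : ℕ) : ℤ), q.1) (2 ^ i) q.2) 0) ^ 2 ∂(law μ) ≤
        Cl * (N / ((2 ^ i : ℕ) : ℝ)) * EE μ (2 ^ i) ^ 2 := by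
  obtain ⟨K, v0, hv0, hK⟩ := hD
  have hC := h.C1
  have hC0 : 0 < C := by linarith
  obtain ⟨D, hD1, hD2⟩ := d2_all h.em h.nd (C := K) (v₀ := min v0 (1 / 2)) (lt_min hv0 (by norm_num)) (min_le_right _ _)
    fun v h0 h1 => hK v h0 (h1.trans (min_le_left _ _))
  obtain ⟨c₁, A, hc₁, hA1, x₁, hx₁⟩ := lam_exp h hD1 hD2
  obtain ⟨C', hC', n₁, hPA⟩ := PA h (A := A) (c₁ := 1 / C) (by linarith) (by positivity)
  refine ⟨c₁, C', max x₁ n₁, hc₁, hC', fun i N hi hN => ?_⟩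
  have hix : x₁ ≤ i := (le_max_left _ _).trans hi
  have hin : n₁ ≤ i := (le_max_right _ _).trans hi
  obtain ⟨m, hm⟩ : ∃ m, m = 2 ^ i := ⟨_, rfl⟩
  have hm1 : 1 ≤ m := by rw [hm]; exact Nat.one_le_two_pow
  have hmn : n₁ ≤ m := by rw [hm]; exact hin.trans Nat.lt_two_pow_self.le
  have hE : 1 ≤ EE μ m := one_le_EE m
  have hmR : (0 : ℝ) < m := by exact_mod_cast hm1
  rw [← hm] at hN ⊢
  -- the functional
  have hLm : ∀ a, Measurable fun η => Lu μ c₁ m η a := fun a =>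
    (Sub_Lm (μ := μ) c₁ m {0}).1.comp (mp_sh (μ := μ) a).measurable
  have hL0 : ∀ η a, 0 ≤ Lu μ c₁ m η a := fun η a => Lm_nonneg _ _ _ _
  have hLd : ∀ t x, DependsOn (fun η => Lu μ c₁ m η (t, x)) (rows t (t + m)) := by
    intro t x η η' hη
    refine (Lm_dep (μ := μ) c₁ m {0}) fun p hp => ?_
    show η (p + (t, x)) = η' (p + (t, x))
    refine hη _ ?_
    have h1 : 0 < p.1 ∧ p.1 ≤ (m : ℤ) := hp
    show t < (p + (t, x)).1 ∧ (p + (t, x)).1 ≤ t + m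
    have h2 : (p + (t, x)).1 = p.1 + t := rfl
    rw [h2]
    omega
  have hval : ∀ (η : Env) (t x : ℤ) (y : ℤ), 0 ≤ y → y ≤ m →
      -X μ 0 η (t, x) m y + c₁ * (m * J μ ((y : ℝ) / m - 1 / 2)) ≤ Lu μ c₁ m η (t, x) := by
    intro η t x y h0 h1
    have h2 := le_Lm_sh (μ := μ) (c₁ := c₁) (m := m) (I := {0}) η t x (x := 0) (Finset.mem_singleton_self 0) h0 h1
    rw [add_zero] at h2
    exact h2
  have hLt : ∀ (z : ℝ) (t : ℤ) (j : ℕ), (law μ).real {η | ∃ x ∈ Cl (wd μ m) z t, j * EE μ m < Lu μ c₁ m η (t, x)} ≤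
      A * Real.exp (-(1 / C * j)) := by
    intro z t j
    have hCE : 0 < C * EE μ m := by positivity
    have hI : ∀ i' ∈ Cl (wd μ m) z t, z + t / 2 < (i' : ℝ) ∧ (i' : ℝ) ≤ z + t / 2 + wd μ m := by
      intro i' hi'
      rw [mem_Cl] at hi'
      constructor <;> linarith [hi'.1, hi'.2]
    have h1 := Lm_tail (μ := μ) h.em (c₁ := c₁) hCE (m := m) (I := Cl (wd μ m) z t) (A := A) (by
      rw [hm] at hI ⊢
      exact hx₁ i hix (z + t / 2) _ hI) ((j : ℝ) / C)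
    have h2 : {η | ∃ x ∈ Cl (wd μ m) z t, j * EE μ m < Lu μ c₁ m η (t, x)} ⊆
        sh (t, 0) ⁻¹' {η | (j : ℝ) / C * (C * EE μ m) ≤ Lm μ c₁ m (Cl (wd μ m) z t) η} := by
      rintro η ⟨x, hx, hlt⟩
      show (j : ℝ) / C * (C * EE μ m) ≤ Lm μ c₁ m (Cl (wd μ m) z t) (sh (t, 0) η)
      have e1 : (j : ℝ) / C * (C * EE μ m) = j * EE μ m := by field_simp
      rw [e1]
      refine hlt.le.trans ?_
      unfold Lu
      refine Lm_le (Lm_nonneg _ _ _ _) fun x' hx' y h0 h1 => ?_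
      rw [Finset.mem_singleton] at hx'
      subst hx'
      have e2 := le_Lm_sh (μ := μ) (c₁ := c₁) (m := m) (I := Cl (wd μ m) z t) η t 0 hx h0 h1
      rw [X_sh]
      have e3 : ((0, 0) : Pt) + (t, x) = (t, 0 + x) := by
        ext <;> simp
      rw [e3]
      exact e2
    have hms : MeasurableSet {η | (j : ℝ) / C * (C * EE μ m) ≤ Lm μ c₁ m (Cl (wd μ m) z t) η} :=
      measurableSet_le measurable_const (Sub_Lm (μ := μ) c₁ m _).1
    calc (law μ).real {η | ∃ x ∈ Cl (wd μ m) z t, j * EE μ m < Lu μ c₁ m η (t, x)}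
        ≤ (law μ).real (sh (t, 0) ⁻¹' {η | (j : ℝ) / C * (C * EE μ m) ≤ Lm μ c₁ m (Cl (wd μ m) z t) η}) :=
          measureReal_mono h2 (measure_ne_top _ _)
      _ = (law μ).real {η | (j : ℝ) / C * (C * EE μ m) ≤ Lm μ c₁ m (Cl (wd μ m) z t) η} :=
          (mp_sh (μ := μ) (t, 0)).measureReal_preimage hms.nullMeasurableSet
      _ ≤ A * Real.exp (-((j : ℝ) / C)) := h1
      _ = A * Real.exp (-(1 / C * j)) := by
          congr 2
          ring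
  obtain ⟨Kn, hKn⟩ : ∃ Kn, Kn = N / m := ⟨_, rfl⟩
  obtain ⟨l₀, hl₀⟩ : ∃ l₀, l₀ = N % m := ⟨_, rfl⟩
  have hNK : N = Kn * m + l₀ := by
    rw [hKn, hl₀]
    have := Nat.div_add_mod N m
    rw [mul_comm]
    omega
  have hl₀m : l₀ ≤ m := by rw [hl₀]; exact (Nat.mod_lt N (by omega)).le
  obtain ⟨hint, hsum⟩ := hPA m hmn (Lu μ c₁ m) hLm hL0 hLd hLt 0 Kn l₀ (Nat.zero_le _) hl₀m
  rw [← hKn]
  have h1 : ∀ k ∈ Finset.range Kn, ∫ η, ∑ q ∈ Pr (k * m) m, Gn μ 0 η (k * m) m (N - (k * m + m)) q *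
        (max (c₁ * Phn μ m q.2 - X μ 0 η (((k * m : ℕ) : ℤ), q.1) m q.2) 0) ^ 2 ∂(law μ) ≤
      ∫ η, Gb μ (0 + k * m) m ((Kn - 1 - k) * m + l₀) (fun η a => Lu μ c₁ m η a ^ 2) η ∂(law μ) := by
    intro k hk
    rw [Finset.mem_range] at hk
    have e1 : N - (k * m + m) = (Kn - 1 - k) * m + l₀ := by
      obtain ⟨d, hd⟩ : ∃ d, Kn = k + 1 + d := ⟨Kn - (k + 1), by omega⟩
      have e2 : Kn - 1 - k = d := by omega
      rw [e2, hNK, hd]
      have : (k + 1 + d) * m = k * m + m + d * m := by ring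
      omega
    rw [e1, zero_add]
    have hi := hint k hk
    rw [zero_add] at hi
    refine integral_mono_of_nonneg (Eventually.of_forall fun η => ?_) hi (Eventually.of_forall fun η => ?_)
    · exact Finset.sum_nonneg fun q _ => mul_nonneg (Gn_nonneg _ _ _ _ _) (sq_nonneg _)
    · unfold Gb
      refine Finset.sum_le_sum fun q hq => mul_le_mul_of_nonneg_left ?_ (Gn_nonneg _ _ _ _ _)
      rw [mem_Pr] at hq
      have e2 := hval η ((k * m : ℕ) : ℤ) q.1 q.2 hq.2.1 hq.2.2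
      refine pow_le_pow_left₀ (le_max_right _ _) (max_le ?_ (hL0 _ _)) 2
      have e3 : Phn μ m q.2 = m * J μ ((q.2 : ℝ) / m - 1 / 2) := by
        unfold Phn
        congr 2
        field_simp
      rw [e3]
      linarith
  refine (Finset.sum_le_sum h1).trans (hsum.trans ?_)
  have h2 : (Kn : ℝ) ≤ N / (m : ℝ) := by
    rw [le_div_iff₀ hmR]
    have : Kn * m ≤ N := by rw [hNK]; omega
    exact_mod_cast this
  gcongr

end

end Pool.Agent.W_7d29a1_X72
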