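import Pool.Agent.W_7d29a1_X72.Count

/-!
STORM X, PA: one bad slab of a polymer of the length of the window; cells of different widths.
-/

namespace Pool.Agent.W_7d29a1_X72

open MeasureTheory ProbabilityTheory Filter Topology
open Pool.Agent.W_7d29a1_F Pool.Agent.W_7d29a1_L Pool.Agent.W_7d29a1_SR Pool.Agent.W_7d29a1_G
open Pool.Agent.W_7d29a1_X50 (Gn Pr Aw)
open scoped ENNReal

noncomputable section

variable {μ : Measure ℝ} [IsProbabilityMeasure μ] {c C : ℝ} {n₀ : ℕ}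

/-- The free end. -/
theorem NB.free (h : In μ c C n₀) {n : ℕ} (hn : n₀ ≤ n) (hw : 1 ≤ wd μ n) {l : ℕ} (hl : l ≤ 4 * n) (t : ℤ) :
    NB μ (wd μ n) (th μ C n) t (ENNReal.ofReal (KK c C)) fun η a => ENNReal.ofReal (Real.exp (V μ 0 η a l)) := by
  have hθ0 := th_pos h n
  have e1 := NB.pe h hn hw hl (t := t) (NB.one (μ := μ) (w := wd μ n) hθ0 (t + l))
  rw [mul_one] at e1
  refine e1.congr fun η x => ?_
  show ENNReal.ofReal (Real.exp (V μ 0 η (t, x) l)) = Pe μ l (fun _ => 1) η (t, x)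
  have e2 := PR_V (μ := μ) l 0 η (t, x)
  rw [add_zero] at e2
  rw [← e2, ← Pe_ofReal η _ (fun b => (Real.exp_pos _).le)]
  refine Pe_congr η _ fun x => ?_
  rw [V_zero, Real.exp_zero, ENNReal.ofReal_one]

/-- One bad slab. -/
theorem Gb_small (h : In μ c C n₀) {n : ℕ} (hn : n₀ ≤ n) (hw : 1 ≤ wd μ n) {a m k : ℕ} (hN : a + m + k = n) {P : ℝ}
    (hP : 0 ≤ P) {b : Env → Pt → ℝ} (hbm : ∀ a, Measurable fun η => b η a) (hb : ∀ η a, b η a = 0 ∨ b η a = 1)
    (hbd : ∀ t x, DependsOn (fun η => b η (t, x)) (rows t (t + m)))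
    (hp : ∀ z t, ∫⁻ η, Sc (wd μ n) z t (fun a => ENNReal.ofReal (b η a)) ∂(law μ) ≤ ENNReal.ofReal P) (T : ℝ) :
    ∫ η, Gb μ a m k b η ∂(law μ) ≤ (law μ).real {η | V μ 0 η 0 n ≤ -(T * EE μ n)} +
      Real.exp (T / (2 * C)) * (KK c C ^ 3 * Real.sqrt P) := by
  have hE : 1 ≤ EE μ n := one_le_EE n
  have hC := h.C1
  have hc := h.c0
  have hK1 : 1 ≤ KK c C := KK_ge hc hC
  have hθ0 := th_pos h n
  have hθ1 := th_le_one h n
  obtain ⟨K, hK⟩ : ∃ K, K = KK c C := ⟨_, rfl⟩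
  have hK0 : 0 < K := by rw [hK]; linarith
  obtain ⟨Zb, hZb⟩ : ∃ Zb : Env → ℝ, Zb = fun η => PR μ a (fun p => b η p * Real.exp (V μ 0 η p (m + k))) η 0 := ⟨_, rfl⟩
  have hb0 : ∀ η a, 0 ≤ b η a := fun η a => by rcases hb η a with h | h <;> rw [h]; norm_num
  have hb1 : ∀ η a, b η a ≤ 1 := fun η a => by rcases hb η a with h | h <;> rw [h]; norm_num
  have hZb0 : ∀ η, 0 ≤ Zb η := fun η => by
    rw [hZb]
    exact PR_nonneg (fun p => mul_nonneg (hb0 _ _) (Real.exp_pos _).le) η 0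
  -- the moment of the weight of the bad paths
  have h1 := NB.free h hn hw (l := k) (by omega) (0 + (a : ℤ) + (m : ℤ))
  have h2 := NB.bad h hn hw (m := m) (by omega) (t := 0 + (a : ℤ)) (p := ENNReal.ofReal P)
    (ib := fun η a => ENNReal.ofReal (b η a)) h1 (fun x => (hbm _).ennreal_ofReal) (fun η a => by
        rcases hb η a with h | h
        · left
          rw [h, ENNReal.ofReal_zero]
        · right
          rw [h, ENNReal.ofReal_one])
      (fun x η η' hη => by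
        have e3 := hbd (0 + (a : ℤ)) x hη
        simp only at e3
        show ENNReal.ofReal (b η (0 + (a : ℤ), x)) = ENNReal.ofReal (b η' (0 + (a : ℤ), x))
        rw [e3]) (fun z => hp z _)
  have h3 := NB.pe h hn hw (l := a) (by omega) (t := 0) h2
  have h4 : ∀ η, ENNReal.ofReal (Zb η) = Pe μ a (fun p => ENNReal.ofReal (b η p) *
      Pe μ m (fun p => ENNReal.ofReal (Real.exp (V μ 0 η p k))) η p) η (0, 0) := by
    intro η
    rw [hZb]
    show _ = Pe μ a _ η 0
    rw [← Pe_ofReal η 0 (fun p => mul_nonneg (hb0 _ _) (Real.exp_pos _).le)]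
    refine Pe_congr η _ fun x => ?_
    rw [ENNReal.ofReal_mul (hb0 _ _), Pe_ofReal η _ (fun p => (Real.exp_pos _).le), PR_V]
  have h5 : ∫⁻ η, ENNReal.ofReal (Zb η) ^ th μ C n ∂(law μ) ≤ ENNReal.ofReal (K ^ 3 * Real.sqrt P) := by
    refine le_trans ?_ ((h3.b (-(1 / 2))).trans (le_of_eq ?_))
    · refine lintegral_mono fun η => ?_
      refine ENNReal.rpow_le_rpow ?_ hθ0.le
      rw [h4]
      unfold Sc
      have h0 : (0 : ℤ) ∈ Cl (wd μ n) (-(1 / 2)) 0 := by
        rw [mem_Cl]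
        constructor
        · norm_num
        · push_cast
          linarith
      exact Finset.le_sup (f := fun x => Pe μ a (fun p => ENNReal.ofReal (b η p) *
        Pe μ m (fun p => ENNReal.ofReal (Real.exp (V μ 0 η p k))) η p) η (0, x)) h0
    · rw [ENNReal.ofReal_rpow_of_nonneg hP (by norm_num), ← Real.sqrt_eq_rpow, ← hK, ← ENNReal.ofReal_mul hK0.le,
        ← ENNReal.ofReal_mul (Real.sqrt_nonneg _), ← ENNReal.ofReal_mul hK0.le]
      congr 1
      ring
  -- the Gibbs mean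
  have hGm := measurable_Gb (μ := μ) a m k hbm
  have hG0 := fun η => Gb_nonneg (μ := μ) a m k hb0 η
  have hG1 := fun η => Gb_le_one (μ := μ) a m k hb1 η
  obtain ⟨D, hD⟩ : ∃ D : Set Env, D = {η | V μ 0 η 0 n ≤ -(T * EE μ n)} := ⟨_, rfl⟩
  have hDm : MeasurableSet D := by rw [hD]; exact measurableSet_le (measurable_V 0 n) measurable_const
  have h6 : ∀ η, ENNReal.ofReal (Gb μ a m k b η) ≤ D.indicator 1 η +
      ENNReal.ofReal (Real.exp (T / (2 * C))) * ENNReal.ofReal (Zb η) ^ th μ C n := by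
    intro η
    by_cases hη : η ∈ D
    · rw [Set.indicator_of_mem hη]
      refine le_trans ?_ (le_add_right le_rfl)
      rw [Pi.one_apply, ← ENNReal.ofReal_one]
      exact ENNReal.ofReal_le_ofReal (hG1 η)
    · refine le_trans ?_ (le_add_left le_rfl)
      rw [hD, Set.mem_ofPred_eq, not_le] at hη
      have e1 : Gb μ a m k b η ≤ Real.exp (T * EE μ n) * Zb η := by
        rw [Gb_eq, hN, div_le_iff₀ (Real.exp_pos _), hZb]
        dsimp only
        have e2 : 1 ≤ Real.exp (T * EE μ n) * Real.exp (V μ 0 η 0 n) := by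
          rw [← Real.exp_add]
          exact Real.one_le_exp (by linarith)
        have e3 := hZb0 η
        rw [hZb] at e3
        dsimp only at e3
        nlinarith
      have e2 : Gb μ a m k b η ≤ (Gb μ a m k b η) ^ th μ C n := by
        conv_lhs => rw [← Real.rpow_one (Gb μ a m k b η)]
        rcases (hG0 η).eq_or_lt with h0 | h0
        · rw [← h0, Real.zero_rpow one_ne_zero, Real.zero_rpow hθ0.ne']
        · exact Real.rpow_le_rpow_of_exponent_ge h0 (hG1 η) hθ1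
      have e3 : (Gb μ a m k b η) ^ th μ C n ≤ (Real.exp (T * EE μ n) * Zb η) ^ th μ C n :=
        Real.rpow_le_rpow (hG0 η) e1 hθ0.le
      have e4 : Real.exp (T * EE μ n) ^ th μ C n = Real.exp (T / (2 * C)) := by
        rw [← Real.exp_mul]
        congr 1
        unfold th
        field_simp
      refine (ENNReal.ofReal_le_ofReal (e2.trans e3)).trans (le_of_eq ?_)
      rw [Real.mul_rpow (Real.exp_pos _).le (hZb0 η), e4, ENNReal.ofReal_mul (Real.exp_pos _).le,
        ENNReal.ofReal_rpow_of_nonneg (hZb0 η) hθ0.le]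
  have hZm : Measurable fun η => ENNReal.ofReal (Zb η) ^ th μ C n := by
    have e1 : Measurable Zb := by
      have e2 : Zb = fun η => Gb μ a m k b η * Real.exp (V μ 0 η 0 n) := by
        funext η
        rw [Gb_eq, hN, hZb]
        have := (Real.exp_pos (V μ 0 η 0 n)).ne'
        field_simp
      rw [e2]
      exact hGm.mul (Real.measurable_exp.comp (measurable_V 0 n))
    exact e1.ennreal_ofReal.pow_const _
  have h7 : ∫⁻ η, ENNReal.ofReal (Gb μ a m k b η) ∂(law μ) ≤ law μ D +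
      ENNReal.ofReal (Real.exp (T / (2 * C))) * ENNReal.ofReal (K ^ 3 * Real.sqrt P) := by
    refine (lintegral_mono h6).trans ?_
    rw [lintegral_add_left (measurable_one.indicator hDm), lintegral_const_mul _ hZm, lintegral_indicator_one hDm]
    exact add_le_add le_rfl (mul_le_mul' le_rfl h5)
  have h8 : law μ D + ENNReal.ofReal (Real.exp (T / (2 * C))) * ENNReal.ofReal (K ^ 3 * Real.sqrt P) =
      ENNReal.ofReal ((law μ).real D + Real.exp (T / (2 * C)) * (K ^ 3 * Real.sqrt P)) := by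
    rw [ENNReal.ofReal_add measureReal_nonneg (by positivity), ENNReal.ofReal_mul (Real.exp_pos _).le]
    congr 1
    rw [ofReal_measureReal (measure_ne_top _ _)]
  rw [h8] at h7
  rw [integral_eq_lintegral_of_nonneg_ae (Eventually.of_forall hG0) hGm.aestronglyMeasurable, ← hK, ← hD]
  calc (∫⁻ η, ENNReal.ofReal (Gb μ a m k b η) ∂(law μ)).toReal
      ≤ (ENNReal.ofReal ((law μ).real D + Real.exp (T / (2 * C)) * (K ^ 3 * Real.sqrt P))).toReal :=
        ENNReal.toReal_mono ENNReal.ofReal_ne_top h7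
    _ = _ := ENNReal.toReal_ofReal (by positivity)

omit [IsProbabilityMeasure μ] in
/-- A wide cell is covered by narrow cells. -/
theorem Sc_cover {w w' : ℝ} (hw' : 0 < w') {M : ℕ} (hM : w ≤ M * w') (z : ℝ) (t : ℤ) (g : Pt → ℝ≥0∞) :
    Sc w z t g ≤ ∑ i ∈ Finset.range M, Sc w' (z + i * w') t g := by
  unfold Sc
  refine Finset.sup_le fun x hx => ?_
  rw [mem_Cl] at hx
  obtain ⟨r, hr⟩ : ∃ r : ℝ, r = ((x : ℝ) - t / 2 - z) / w' := ⟨_, rfl⟩
  have hrw : r * w' = (x : ℝ) - t / 2 - z := by rw [hr]; field_simp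
  have hr0 : 0 < r := by rw [hr]; exact div_pos (by linarith) hw'
  have hrM : r ≤ M := by
    rw [hr, div_le_iff₀ hw']
    linarith
  have h1 : (⌈r⌉₊ : ℝ) < r + 1 := Nat.ceil_lt_add_one hr0.le
  have h2 : r ≤ (⌈r⌉₊ : ℝ) := Nat.le_ceil r
  have h3 : 0 < ⌈r⌉₊ := Nat.ceil_pos.2 hr0
  have h4 : ⌈r⌉₊ ≤ M := Nat.ceil_le.2 hrM
  have h5 : ((⌈r⌉₊ - 1 : ℕ) : ℝ) = (⌈r⌉₊ : ℝ) - 1 := by
    rw [Nat.cast_sub h3, Nat.cast_one]
  have h6 : x ∈ Cl w' (z + ((⌈r⌉₊ - 1 : ℕ) : ℝ) * w') t := by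
    rw [mem_Cl, h5]
    constructor
    · nlinarith
    · nlinarith
  refine le_trans (Finset.le_sup (f := fun x => g (t, x)) h6) ?_
  exact Finset.single_le_sum (f := fun i : ℕ => (Cl w' (z + i * w') t).sup fun x => g (t, x)) (fun _ _ => zero_le)
    (Finset.mem_range.2 (by omega))

omit [IsProbabilityMeasure μ] in
/-- The union bound for a wide cell. -/
theorem lint_cover {w w' : ℝ} (hw' : 0 < w') {M : ℕ} (hM : w ≤ M * w') {g : Env → Pt → ℝ≥0∞}
    (hg : ∀ a, Measurable fun η => g η a) {P : ℝ}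
    (hp : ∀ z t, ∫⁻ η, Sc w' z t (g η) ∂(law μ) ≤ ENNReal.ofReal P) (z : ℝ) (t : ℤ) :
    ∫⁻ η, Sc w z t (g η) ∂(law μ) ≤ ENNReal.ofReal (M * P) := by
  refine (lintegral_mono fun η => Sc_cover hw' hM z t (g η)).trans ?_
  rw [lintegral_finsetSum _ fun i _ => measurable_Sc fun x => hg _]
  refine (Finset.sum_le_sum fun i _ => hp _ t).trans (le_of_eq ?_)
  rw [Finset.sum_const, Finset.card_range, nsmul_eq_mul, ENNReal.ofReal_mul (Nat.cast_nonneg _), ENNReal.ofReal_natCast]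

end

end Pool.Agent.W_7d29a1_X72
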